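import Pool.Agent.W169.HF.DefsB

/-!
# HF-JU: upper bound for the half-line integral (after `Pool.Agent.W186.HZ.JU` of helper186)
-/

set_option autoImplicit false

namespace Pool.Agent.W363.HF

open Complex Filter Topology MeasureTheory Set
open Pool.Agent.W169.HF

lemma expint : IntegrableOn (fun r : ℝ => Real.exp (-r)) (Ioi 0) ∧
    ∫ r in Ioi (0 : ℝ), Real.exp (-r) = 1 := by
  refine ⟨?_, integral_exp_neg_Ioi_zero⟩
  have := exp_neg_integrableOn_Ioi 0 (b := 1) one_pos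
  simpa using this

lemma quad_eq {t L α r : ℝ} (ht : 0 < t) : -(r ^ 2 / (4 * t)) + α * r + L * r =
    t * (L + α) ^ 2 - (r - 2 * t * (L + α)) ^ 2 / (4 * t) := by
  field_simp
  ring

lemma quad_max {t L α r : ℝ} (ht : 0 < t) :
    -(r ^ 2 / (4 * t)) + α * r + L * r ≤ t * (L + α) ^ 2 := by
  rw [quad_eq ht]
  have : 0 ≤ (r - 2 * t * (L + α)) ^ 2 / (4 * t) := by positivity
  linarith

/-- the exponent near the origin -/
lemma expo {t ℓ α g ϑ r : ℝ} (ht : 0 < t) (hℓ : 0 < ℓ) (hϑ0 : 0 ≤ ϑ) (hϑ : ϑ ≤ 3) (hg : 0 < g)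
    (hg1 : g ≤ 1) (hr : 0 < r)
    (h : (2 * ϑ + g ≤ 2 * t * ℓ ∧ -(g / 64 * ℓ) ≤ α) ∨ ϑ ≤ 2 * t * α) :
    -(r ^ 2 / (4 * t)) + α * r + ℓ * max r ϑ ≤ t * (ℓ + α) ^ 2 := by
  rcases le_total ϑ r with h1 | h1
  · rw [max_eq_left h1]
    exact quad_max ht
  rw [max_eq_right h1]
  by_cases h2 : ϑ ≤ 2 * t * α
  · have h3 : 0 ≤ (ϑ - r) * (4 * t * α - (ϑ + r)) :=
      mul_nonneg (by linarith) (by nlinarith)
    have h4 : -(r ^ 2 / (4 * t)) + α * r ≤ -(ϑ ^ 2 / (4 * t)) + α * ϑ := by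
      have e : (-(ϑ ^ 2 / (4 * t)) + α * ϑ) - (-(r ^ 2 / (4 * t)) + α * r) =
          (ϑ - r) * (4 * t * α - (ϑ + r)) / (4 * t) := by
        field_simp
        ring
      have : 0 ≤ (ϑ - r) * (4 * t * α - (ϑ + r)) / (4 * t) := by positivity
      linarith
    have h5 := quad_max (t := t) (L := ℓ) (α := α) (r := ϑ) ht
    linarith
  · rcases h with ⟨h3, h4⟩ | h3
    swap
    · exact absurd h3 h2
    have h5 : (2 * ϑ + g) * ℓ ≤ 2 * t * ℓ * ℓ := mul_le_mul_of_nonneg_right h3 hℓ.le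
    rcases le_total 0 α with h6 | h6
    · have h7 := quad_max (t := t) (L := 0) (α := α) (r := r) ht
      have h8 : 0 ≤ t * α * ℓ := by positivity
      have h9 : 0 ≤ g * ℓ := by positivity
      nlinarith
    · have h7 : α * r ≤ 0 := mul_nonpos_of_nonpos_of_nonneg h6 hr.le
      have h8 : 0 ≤ r ^ 2 / (4 * t) := by positivity
      have h9 : (1 - g / 64) * ℓ ≤ ℓ + α := by linarith
      have h10 : 0 ≤ (1 - g / 64) * ℓ := by
        apply mul_nonneg _ hℓ.le
        linarith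
      have h11 : ((1 - g / 64) * ℓ) ^ 2 ≤ (ℓ + α) ^ 2 := pow_le_pow_left₀ h10 h9 2
      have h12 : t * ((1 - g / 64) * ℓ) ^ 2 ≤ t * (ℓ + α) ^ 2 :=
        mul_le_mul_of_nonneg_left h11 ht.le
      have h13 : (1 - g / 32) * (2 * t * ℓ * ℓ) ≤ 2 * (t * ((1 - g / 64) * ℓ) ^ 2) := by
        have : 0 ≤ t * ℓ ^ 2 * g ^ 2 := by positivity
        nlinarith
      have h14 : (1 - g / 32) * ((2 * ϑ + g) * ℓ) ≤ (1 - g / 32) * (2 * t * ℓ * ℓ) := by
        apply mul_le_mul_of_nonneg_left h5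
        linarith
      have h15 : 2 * ϑ * ℓ ≤ (1 - g / 32) * ((2 * ϑ + g) * ℓ) := by
        have h16 : 0 ≤ g * (1 - ϑ / 16 - g / 32) * ℓ := by
          apply mul_nonneg (mul_nonneg hg.le _) hℓ.le
          linarith
        nlinarith
      linarith

theorem ju : S_JU := by
  intro K ϑ0 ϑ g X Y κ hK hϑ01 hϑ02 hϑ hϑ3 hg hg1 hX hY hκ
  refine ⟨max (8 * X * (2 * K + 1)) (max ((2 * X + 2 * Y + 4) / κ) 1), ?_⟩
  intro ℓ G t f hℓ hud hpf ht hg2 hX2 α hα hcase
  have hℓ1 : 8 * X * (2 * K + 1) ≤ ℓ := (le_max_left _ _).trans hℓ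
  have hℓ2 : (2 * X + 2 * Y + 4) / κ ≤ ℓ := ((le_max_left _ _).trans (le_max_right _ _)).trans hℓ
  have hℓ3 : 1 ≤ ℓ := ((le_max_right _ _).trans (le_max_right _ _)).trans hℓ
  rw [div_le_iff₀ hκ] at hℓ2
  have hℓ0 : 0 < ℓ := by linarith
  have hG := hud.hG
  set R : ℝ := 2 * X + 2 * Y + 4 with hR
  set E : ℝ := t * (ℓ + α) ^ 2 with hE
  have hb : ∀ r ∈ Ioi (0 : ℝ), Real.exp (-(r ^ 2 / (4 * t)) + α * r) * ‖f r‖ ≤
      G * Real.exp (E + κ * ℓ + R) * Real.exp (-r) := by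
    intro r hr
    rw [mem_Ioi] at hr
    rcases le_or_gt r R with h1 | h1
    · have h2 := hpf.upp (r : ℂ) (by rw [ofReal_re, abs_of_pos hr]; exact h1)
        (by rw [ofReal_im, abs_zero]; linarith)
      rw [ofReal_re, abs_of_pos hr] at h2
      have h3 := expo ht hℓ0 hϑ hϑ3 hg hg1 hr hcase
      calc Real.exp (-(r ^ 2 / (4 * t)) + α * r) * ‖f r‖
          ≤ Real.exp (-(r ^ 2 / (4 * t)) + α * r) * (G * Real.exp (ℓ * max r ϑ + κ * ℓ)) := by
            gcongr
        _ = G * Real.exp (-(r ^ 2 / (4 * t)) + α * r + (ℓ * max r ϑ + κ * ℓ)) := by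
            rw [Real.exp_add (-(r ^ 2 / (4 * t)) + α * r)]
            ring
        _ ≤ G * Real.exp (E + κ * ℓ + R + -r) := by
            have : -(r ^ 2 / (4 * t)) + α * r + (ℓ * max r ϑ + κ * ℓ) ≤ E + κ * ℓ + R + -r := by
              linarith
            gcongr
        _ = _ := by rw [Real.exp_add (E + κ * ℓ + R), mul_assoc]
    · have h2 := hud.up (r : ℂ)
      rw [ofReal_re, abs_of_pos hr, max_eq_left (by linarith : ϑ0 ≤ r), norm_real,
        Real.norm_eq_abs, sq_abs] at h2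
      have h3 : 2 * t * (ℓ + α) ≤ r / 2 := by linarith
      have hr1 : 1 ≤ r := by linarith
      have h4 : r ^ 2 / 4 ≤ (r - 2 * t * (ℓ + α)) ^ 2 := by
        have : r / 2 ≤ r - 2 * t * (ℓ + α) := by linarith
        nlinarith
      have h5 : r ^ 2 * (2 * K + 1) ≤ (r - 2 * t * (ℓ + α)) ^ 2 / (4 * t) := by
        rw [le_div_iff₀ (by positivity)]
        have h6 : 16 * t * (2 * K + 1) ≤ 1 := by
          have h7 : 2 * t * (8 * X * (2 * K + 1)) ≤ 2 * t * ℓ :=
            mul_le_mul_of_nonneg_left hℓ1 (by positivity)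
          have h8 : 2 * t * (8 * X * (2 * K + 1)) ≤ X := h7.trans hX2
          have h9 : X * (16 * t * (2 * K + 1)) ≤ X * 1 := by linarith
          exact le_of_mul_le_mul_left h9 (by linarith)
        have h10 : r ^ 2 * (2 * K + 1) * (4 * t) = r ^ 2 / 4 * (16 * t * (2 * K + 1)) := by ring
        rw [h10]
        have : r ^ 2 / 4 * (16 * t * (2 * K + 1)) ≤ r ^ 2 / 4 * 1 :=
          mul_le_mul_of_nonneg_left h6 (by positivity)
        linarith
      have h6 := quad_eq (t := t) (L := ℓ) (α := α) (r := r) ht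
      calc Real.exp (-(r ^ 2 / (4 * t)) + α * r) * ‖f r‖
          ≤ Real.exp (-(r ^ 2 / (4 * t)) + α * r) *
            (G * Real.exp (ℓ * r + K * (1 + r ^ 2))) := by gcongr
        _ = G * Real.exp (-(r ^ 2 / (4 * t)) + α * r + (ℓ * r + K * (1 + r ^ 2))) := by
            rw [Real.exp_add (-(r ^ 2 / (4 * t)) + α * r)]
            ring
        _ ≤ G * Real.exp (E + κ * ℓ + R + -r) := by
            have : -(r ^ 2 / (4 * t)) + α * r + (ℓ * r + K * (1 + r ^ 2)) ≤
                E + κ * ℓ + R + -r := by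
              have h7 : K * (1 + r ^ 2) ≤ K * (2 * r ^ 2) := by
                apply mul_le_mul_of_nonneg_left _ (by linarith)
                nlinarith
              have h8 : 0 ≤ κ * ℓ := by positivity
              have h9 : r ≤ r ^ 2 := by nlinarith
              have h10 : 0 < R := by linarith
              nlinarith
            gcongr
        _ = _ := by rw [Real.exp_add (E + κ * ℓ + R), mul_assoc]
  have hint := expint.1.const_mul (G * Real.exp (E + κ * ℓ + R))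
  have hcont : Continuous fun r : ℝ => Real.exp (-(r ^ 2 / (4 * t)) + α * r) * ‖f r‖ := by
    have h1 : Continuous f := hud.slow.1.continuous
    fun_prop
  have hI : IntegrableOn (fun r : ℝ => Real.exp (-(r ^ 2 / (4 * t)) + α * r) * ‖f r‖) (Ioi 0) := by
    refine hint.mono' hcont.aestronglyMeasurable ?_
    refine (ae_restrict_mem measurableSet_Ioi).mono fun r hr => ?_
    rw [Real.norm_eq_abs, abs_of_nonneg (by positivity)]
    exact hb r hr
  refine ⟨hI, ?_⟩
  refine (setIntegral_mono_on hI hint measurableSet_Ioi hb).trans ?_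
  rw [integral_const_mul, expint.2, mul_one]
  have h1 : E + κ * ℓ + R ≤ E + 2 * κ * ℓ := by linarith
  gcongr

end Pool.Agent.W363.HF
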